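import Pool.Agent.MP_3ee8cb_gt.CZI.Dom
import Pool.Agent.MP_3ee8cb_gt.D3LM.Lip

/-! A map whose graph is a Lipschitz graph is differentiable almost everywhere. -/

namespace Pool.Agent.MP_3ee8cb_gt.CZI

open Set Metric Filter Topology MeasureTheory
open scoped NNReal

variable {E F G : Type} [NormedAddCommGroup E] [NormedSpace ℝ E] [FiniteDimensional ℝ E]
  [NormedAddCommGroup F] [NormedAddCommGroup G] [NormedSpace ℝ G] [FiniteDimensional ℝ G]

/-- `π : U → W` is a homeomorphism with Lipschitz inverse `κ`, and `φ ∘ κ` is Lipschitz. -/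
structure Cht (φ : E → F) (π : E → G) (κ : G → E) (U : Set E) (W : Set G) (L : ℝ≥0) : Prop where
  oU : IsOpen U
  oW : IsOpen W
  cπ : ContinuousOn π U
  mπ : MapsTo π U W
  mκ : MapsTo κ W U
  left : ∀ y ∈ U, κ (π y) = y
  right : ∀ e ∈ W, π (κ e) = e
  lκ : LipschitzOnWith L κ W
  lφ : LipschitzOnWith L (fun e => φ (κ e)) W

/-- The chart on an open set where the inequality holds. -/
theorem chart_on (hd : Module.finrank ℝ E = Module.finrank ℝ G) {φ : E → F} {π : E → G} {C : ℝ}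
    {U : Set E} (hU : IsOpen U) (hne : U.Nonempty) (hc : ContinuousOn π U)
    (h : ∀ a ∈ U, ∀ b ∈ U, ‖a - b‖ + ‖φ a - φ b‖ ≤ C * ‖π a - π b‖) :
    ∃ κ, Cht φ π κ U (π '' U) C.toNNReal := by
  have : Nonempty E := ⟨0⟩
  have hi : InjOn π U := fun a ha b hb e => by
    have := h a ha b hb
    rw [e, sub_self, norm_zero, mul_zero] at this
    exact sub_eq_zero.1 (norm_le_zero_iff.1 (by linarith [norm_nonneg (φ a - φ b)]))
  have l : ∀ y ∈ U, Function.invFunOn π U (π y) = y := fun y hy => hi.leftInvOn_invFunOn hy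
  have b : ∀ a ∈ U, ∀ b ∈ U, C * ‖π a - π b‖ ≤ C.toNNReal * dist (π a) (π b) := fun a _ b _ => by
    rw [dist_eq_norm]
    exact mul_le_mul_of_nonneg_right (Real.le_coe_toNNReal C) (norm_nonneg _)
  refine ⟨Function.invFunOn π U, hU, isOpen_image hd hU hc hi, hc, mapsTo_image _ _, ?_, l, ?_,
    LipschitzOnWith.of_dist_le_mul ?_, LipschitzOnWith.of_dist_le_mul ?_⟩
  · rintro _ ⟨y, hy, rfl⟩
    rwa [l y hy]
  · rintro _ ⟨y, hy, rfl⟩
    rw [l y hy]
  · rintro _ ⟨y, hy, rfl⟩ _ ⟨z, hz, rfl⟩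
    rw [l y hy, l z hz, dist_eq_norm]
    linarith [h y hy z hz, b y hy z hz, norm_nonneg (φ y - φ z)]
  · rintro _ ⟨y, hy, rfl⟩ _ ⟨z, hz, rfl⟩
    rw [l y hy, l z hz, dist_eq_norm]
    linarith [h y hy z hz, b y hy z hz, norm_nonneg (y - z)]

/-- The chart at a point. -/
theorem chart (hd : Module.finrank ℝ E = Module.finrank ℝ G) {φ : E → F} {π : E → G} {C : ℝ}
    {x : E} (hc : ∀ᶠ y in 𝓝 x, ContinuousAt π y)
    (h : ∀ᶠ p : E × E in 𝓝 (x, x), ‖p.1 - p.2‖ + ‖φ p.1 - φ p.2‖ ≤ C * ‖π p.1 - π p.2‖)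
    {s : Set E} (hs : s ∈ 𝓝 x) :
    ∃ κ U, x ∈ U ∧ U ⊆ s ∧ Cht φ π κ U (π '' U) C.toNNReal := by
  rw [nhds_prod_eq] at h
  obtain ⟨t, ht, t', ht', htt⟩ := Filter.mem_prod_iff.1 h
  obtain ⟨U, hU, oU, xU⟩ := _root_.mem_nhds_iff.1 (inter_mem (inter_mem ht ht') (inter_mem hc hs))
  obtain ⟨κ, hκ⟩ := chart_on hd (φ := φ) (π := π) (C := C) oU ⟨x, xU⟩
    (fun y hy => (hU hy).2.1.continuousWithinAt)
    fun a ha b hb => htt (mk_mem_prod (hU ha).1.1 (hU hb).1.2)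
  exact ⟨κ, U, xU, fun y hy => (hU hy).2.2, hκ⟩

variable [NormedSpace ℝ F]

omit [FiniteDimensional ℝ G] [FiniteDimensional ℝ E] in
/-- Differentiability at a point where the chart is regular. -/
theorem Cht.hasFDerivAt {φ : E → F} {π : E → G} {κ : G → E} {U : Set E} {W : Set G} {L : ℝ≥0}
    (c : Cht φ π κ U W L) {y : E} (hy : y ∈ U) {A : G ≃L[ℝ] E} {B : G →L[ℝ] F}
    (hA : HasFDerivAt κ (A : G →L[ℝ] E) (π y)) (hB : HasFDerivAt (fun e => φ (κ e)) B (π y)) :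
    HasFDerivAt π (A.symm : E →L[ℝ] G) y ∧ HasFDerivAt φ (B.comp (A.symm : E →L[ℝ] G)) y := by
  have h1 : ∀ᶠ z in 𝓝 y, κ (π z) = z := by
    filter_upwards [c.oU.mem_nhds hy] with z hz using c.left z hz
  have h2 := hA.of_local_left_inverse (c.cπ.continuousAt (c.oU.mem_nhds hy)) h1
  refine ⟨h2, (hB.comp y h2).congr_of_eventuallyEq ?_⟩
  filter_upwards [h1] with z hz
  simp only [Function.comp, hz]

variable [FiniteDimensional ℝ F] [MeasurableSpace E] [BorelSpace E] (μ : Measure E)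
  [μ.IsAddHaarMeasure]

theorem Cht.null {φ : E → F} {π κ : E → E} {U W : Set E} {L : ℝ≥0} (c : Cht φ π κ U W L) :
    μ {y ∈ U | ¬DifferentiableAt ℝ φ y} = 0 := by
  have l1 : LocallyLipschitzOn W κ := fun _ _ => ⟨L, W, self_mem_nhdsWithin, c.lκ⟩
  have l2 : LocallyLipschitzOn W fun e => φ (κ e) :=
    fun _ _ => ⟨L, W, self_mem_nhdsWithin, c.lφ⟩
  have h1 := D3LM.sard μ c.oW l1
  have h2 := D3LM.img_null μ (s := {a ∈ W | ¬DifferentiableAt ℝ (fun e => φ (κ e)) a})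
    (l1.mono fun _ k => k.1) (measure_eq_zero_iff_ae_notMem.2
      ((D3LM.ae_diff μ c.oW l2).mono fun a ha k => k.2 (ha k.1)))
  refine measure_mono_null (fun y hy => ?_) (measure_union_null h1 h2)
  by_contra hn
  rw [mem_union, not_or] at hn
  have w := c.mπ hy.1
  have k1 : DifferentiableAt ℝ κ (π y) ∧ (fderiv ℝ κ (π y)).det ≠ 0 := by
    by_contra k
    exact hn.1 ⟨π y, ⟨w, by tauto⟩, c.left y hy.1⟩
  have k2 : DifferentiableAt ℝ (fun e => φ (κ e)) (π y) := by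
    by_contra k
    exact hn.2 ⟨π y, ⟨w, k⟩, c.left y hy.1⟩
  exact hy.2 (c.hasFDerivAt hy.1 (A := (fderiv ℝ κ (π y)).toContinuousLinearEquivOfDetNeZero k1.2)
    k1.1.hasFDerivAt k2.hasFDerivAt).2.differentiableAt

/-- A map whose graph is locally a Lipschitz graph is differentiable almost everywhere. -/
theorem ae_differentiableAt (hd : Module.finrank ℝ E = Module.finrank ℝ G) {φ : E → F}
    {S : Set E} (h : ∀ x ∈ S, ∃ (π : E → G) (C : ℝ), (∀ᶠ y in 𝓝 x, ContinuousAt π y) ∧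
      ∀ᶠ p : E × E in 𝓝 (x, x), ‖p.1 - p.2‖ + ‖φ p.1 - φ p.2‖ ≤ C * ‖π p.1 - π p.2‖) :
    ∀ᵐ x ∂μ, x ∈ S → DifferentiableAt ℝ φ x := by
  let b : G ≃L[ℝ] E := ContinuousLinearEquiv.ofFinrankEq hd.symm
  have k := D3LM.loc_null μ (S := {x ∈ S | ¬DifferentiableAt ℝ φ x}) id fun x hx => by
    obtain ⟨π, C, h1, h2⟩ := h x hx.1
    obtain ⟨κ, U, xU, -, c⟩ := chart (G := E) rfl (φ := φ) (π := fun y => b (π y))
      (C := max C 0 * ‖(b.symm : E →L[ℝ] G)‖) (x := x)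
      (h1.mono fun y hy => b.continuous.continuousAt.comp hy) (h2.mono fun p hp => by
        have e := (b.symm : E →L[ℝ] G).le_opNorm (b (π p.1) - b (π p.2))
        rw [map_sub, ContinuousLinearEquiv.coe_coe, b.symm_apply_apply, b.symm_apply_apply] at e
        refine hp.trans ?_
        rw [mul_assoc]
        exact (mul_le_mul_of_nonneg_right (le_max_left _ _) (norm_nonneg _)).trans
          (mul_le_mul_of_nonneg_left e (le_max_right _ _))) univ_mem
    refine ⟨U, mem_nhdsWithin_of_mem_nhds (c.oU.mem_nhds xU), ?_⟩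
    rw [image_id]
    refine measure_mono_null (fun y hy => ?_) (c.null μ)
    exact ⟨hy.1, hy.2.2⟩
  rw [image_id] at k
  filter_upwards [measure_eq_zero_iff_ae_notMem.1 k] with x hx hS
  by_contra hn
  exact hx ⟨hS, hn⟩

end Pool.Agent.MP_3ee8cb_gt.CZI
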