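import Pool.Agent.MP_98f34a_gt.H36.Brouwer

/-! Invariance of domain. -/

namespace Pool.Agent.MP_3ee8cb_gt.CZI

open Set Metric Filter Topology MeasureTheory
open scoped Manifold ContDiff

section

variable {E : Type} [NormedAddCommGroup E] [InnerProductSpace ℝ E] [FiniteDimensional ℝ E]

/-- A map close to the identity on the unit ball has a zero. -/
theorem stab (h : E → E) (hc : ContinuousOn h (closedBall 0 1))
    (hb : ∀ w ∈ closedBall (0 : E) 1, ‖w - h w‖ ≤ 1) : ∃ w ∈ closedBall (0 : E) 1, h w = 0 := by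
  let ρ : E → E := fun w => (max 1 ‖w‖)⁻¹ • w
  have p : ∀ w : E, 0 < max 1 ‖w‖ := fun w => lt_max_of_lt_left one_pos
  have cρ : Continuous ρ :=
    ((continuous_const.max continuous_norm).inv₀ fun w => (p w).ne').smul continuous_id
  have mρ : ∀ w, ρ w ∈ closedBall (0 : E) 1 := fun w => by
    rw [mem_closedBall_zero_iff, norm_smul, norm_inv, Real.norm_of_nonneg (p w).le,
      inv_mul_le_iff₀ (p w), mul_one]
    exact le_max_right _ _
  obtain ⟨w, hw⟩ := Pool.Agent.MP_98f34a_gt.H36.brouwer_euclid (fun w => ρ w - h (ρ w))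
    (cρ.sub (hc.comp_continuous cρ mρ)) 1 fun w => hb _ (mρ w)
  have h1 : ‖w‖ ≤ 1 := by
    rw [← hw]
    exact hb _ (mρ w)
  have h2 : ρ w = w := by
    simp only [ρ]
    rw [max_eq_left h1, inv_one, one_smul]
  simp only [h2] at hw
  exact ⟨w, mem_closedBall_zero_iff.2 h1, sub_eq_self.1 hw⟩

theorem approx (G : E → E) (hG : Continuous G) {δ : ℝ} (hδ : 0 < δ) :
    ∃ P : E → E, ContDiff ℝ 1 P ∧ ∀ y, ‖P y - G y‖ < δ := by
  obtain ⟨P, hP⟩ := exists_contMDiffMap_forall_mem_convex_of_local_const (n := 1) 𝓘(ℝ, E)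
    (t := fun y => ball (G y) δ) (fun y => convex_ball _ _) fun y => ⟨G y, by
      filter_upwards [hG.continuousAt.eventually (ball_mem_nhds (G y) hδ)] with y' h
      exact mem_ball_comm.1 h⟩
  exact ⟨P, P.contMDiff.contDiff, fun y => mem_ball_iff_norm.1 (hP y)⟩

theorem avoid (P : E → E) (hP : ContDiff ℝ 1 P) (c : E) {ε δ : ℝ} (hε : 0 < ε) (hδ : 0 < δ) :
    ∃ a : E, ‖a‖ < δ ∧ ∀ y ∈ sphere c ε, P y ≠ a := by
  borelize E
  let μ : Measure E := Measure.addHaar
  have h0 : μ (P '' sphere c ε) = 0 :=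
    addHaar_image_eq_zero_of_differentiableOn_of_addHaar_eq_zero μ
      (hP.differentiable one_ne_zero).differentiableOn (Measure.addHaar_sphere_of_ne_zero μ c hε.ne')
  by_contra hn
  push Not at hn
  have h1 : ball (0 : E) δ ⊆ P '' sphere c ε := fun a ha => hn a (mem_ball_zero_iff.1 ha)
  exact (measure_ball_pos μ 0 hδ).ne' (measure_mono_null h1 h0)

theorem core (f : E → E) (hc : ContinuousOn f (closedBall 0 1)) (hi : InjOn f (closedBall 0 1)) :
    f '' closedBall 0 1 ∈ 𝓝 (f 0) := by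
  by_contra hn
  have : TietzeExtension E := TietzeExtension.of_tvs ℝ
  have : CompactSpace (closedBall (0 : E) 1) := isCompact_iff_compactSpace.1 (isCompact_closedBall _ _)
  have ce : IsClosedEmbedding ((closedBall (0 : E) 1).domRestrict f) :=
    hc.domRestrict.isClosedEmbedding hi.injective
  obtain ⟨G, hG⟩ := ContinuousMap.exists_extension' ce ⟨Subtype.val, continuous_subtype_val⟩
  have Gf : ∀ w ∈ closedBall (0 : E) 1, G (f w) = w := fun w hw => congrFun hG ⟨w, hw⟩
  have z0 : (0 : E) ∈ closedBall (0 : E) 1 := mem_closedBall_self zero_le_one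
  obtain ⟨ε, hε, hs⟩ : ∃ ε > 0, ∀ y, dist y (f 0) < 3 * ε → ‖G y‖ < 1 / 10 := by
    obtain ⟨η, hη, h⟩ := Metric.continuousAt_iff.1 (G.continuous.continuousAt (x := f 0)) (1 / 10)
      (by norm_num)
    refine ⟨η / 3, by positivity, fun y hy => ?_⟩
    have := h (x := y) (by linarith)
    rwa [Gf 0 z0, dist_zero_right] at this
  obtain ⟨c, hc1, hc2⟩ : ∃ c, dist c (f 0) < ε ∧ c ∉ f '' closedBall 0 1 := by
    by_contra h
    push Not at h
    exact hn (mem_of_superset (ball_mem_nhds _ hε) fun y hy => h y hy)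
  have sm : ∀ y, ‖y - c‖ ≤ ε → ‖G y‖ < 1 / 10 := fun y hy => hs y (by
    have := dist_triangle y c (f 0)
    rw [dist_eq_norm y c] at this
    linarith)
  have kK : IsCompact (f '' closedBall 0 1 ∩ {y | ε ≤ ‖y - c‖}) :=
    ((isCompact_closedBall _ _).image_of_continuousOn hc).inter_right
      (isClosed_le continuous_const (continuous_id.sub continuous_const).norm)
  obtain ⟨δ, hδ, hδ1, hδ2⟩ : ∃ δ : ℝ, 0 < δ ∧ δ ≤ 1 / 10 ∧
      ∀ y ∈ f '' closedBall 0 1 ∩ {y | ε ≤ ‖y - c‖}, 2 * δ ≤ ‖G y‖ := by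
    obtain ⟨b, hb, h⟩ := kK.exists_forall_le' (f := fun y => ‖G y‖) (a := 0)
      G.continuous.norm.continuousOn (by
        rintro _ ⟨⟨w, hw, rfl⟩, h2⟩
        rw [Gf w hw, norm_pos_iff]
        rintro rfl
        rw [dist_comm, dist_eq_norm] at hc1
        exact absurd hc1 (not_lt.2 h2))
    exact ⟨min (1 / 10) (b / 2), lt_min (by norm_num) (by linarith), min_le_left _ _, fun y hy => by
      linarith [min_le_right (1 / 10) (b / 2), h y hy]⟩
  obtain ⟨P, cP, hP⟩ := approx G G.continuous hδ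
  obtain ⟨a, ha, hav⟩ := avoid P cP c hε hδ
  have ne : ∀ w ∈ closedBall (0 : E) 1, 0 < ‖f w - c‖ := fun w hw =>
    norm_pos_iff.2 (sub_ne_zero.2 fun h => hc2 ⟨w, hw, h⟩)
  let Φ : E → E := fun w => c + max (ε / ‖f w - c‖) 1 • (f w - c)
  have cΦ : ContinuousOn Φ (closedBall 0 1) :=
    continuousOn_const.add (((continuousOn_const.div (hc.sub continuousOn_const).norm
      fun w hw => (ne w hw).ne').sup continuousOn_const).smul (hc.sub continuousOn_const))
  have far : ∀ w ∈ closedBall (0 : E) 1, ε ≤ ‖f w - c‖ → Φ w = f w := fun w hw h => by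
    simp only [Φ]
    rw [max_eq_right ((div_le_one (ne w hw)).2 h), one_smul, add_sub_cancel]
  have near : ∀ w ∈ closedBall (0 : E) 1, ‖f w - c‖ ≤ ε → ‖Φ w - c‖ = ε := fun w hw h => by
    simp only [Φ]
    rw [max_eq_left ((one_le_div (ne w hw)).2 h), add_sub_cancel_left, norm_smul,
      Real.norm_of_nonneg (div_pos hε (ne w hw)).le, div_mul_cancel₀ _ (ne w hw).ne']
  obtain ⟨w, hw, h0⟩ := stab (fun w => P (Φ w) - a)
    ((cP.continuous.comp_continuousOn cΦ).sub continuousOn_const) fun w hw => by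
      have e : w - (P (Φ w) - a) = (G (f w) - G (Φ w)) - (P (Φ w) - G (Φ w)) + a := by
        rw [Gf w hw]
        abel
      have h1 : ‖G (f w) - G (Φ w)‖ ≤ 2 / 10 := by
        rcases le_total ε ‖f w - c‖ with h | h
        · rw [far w hw h, sub_self, norm_zero]
          norm_num
        · linarith [norm_sub_le (G (f w)) (G (Φ w)), sm _ h, sm _ (near w hw h).le]
      rw [e]
      linarith [norm_add_le (G (f w) - G (Φ w) - (P (Φ w) - G (Φ w))) a,
        norm_sub_le (G (f w) - G (Φ w)) (P (Φ w) - G (Φ w)), hP (Φ w)]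
  have h0' : P (Φ w) = a := sub_eq_zero.1 h0
  rcases le_total ε ‖f w - c‖ with h | h
  · have h1 := hδ2 (f w) ⟨⟨w, hw, rfl⟩, h⟩
    have h2 := hP (f w)
    rw [far w hw h] at h0'
    rw [h0'] at h2
    have h3 := norm_sub_le a (a - G (f w))
    rw [sub_sub_cancel] at h3
    linarith
  · exact hav _ (mem_sphere_iff_norm.2 (near w hw h)) h0'

theorem nhds_euclid {f : E → E} {s : Set E} {x : E} (hs : s ∈ 𝓝 x) (hc : ContinuousOn f s)
    (hi : InjOn f s) : f '' s ∈ 𝓝 (f x) := by
  obtain ⟨r, hr, h⟩ := nhds_basis_closedBall.mem_iff.1 hs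
  have mp : MapsTo (fun w : E => x + r • w) (closedBall 0 1) s := fun w hw => h (by
    rw [mem_closedBall_iff_norm, add_sub_cancel_left, norm_smul, Real.norm_of_nonneg hr.le]
    exact mul_le_of_le_one_right hr.le (mem_closedBall_zero_iff.1 hw))
  have k := core (fun w => f (x + r • w)) (hc.comp (by fun_prop) mp) fun w hw w' hw' e =>
    smul_right_injective E hr.ne' (add_left_cancel (hi (mp hw) (mp hw') e))
  simp only [smul_zero, add_zero] at k
  refine mem_of_superset k ?_
  rintro _ ⟨w, hw, rfl⟩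
  exact ⟨_, mp hw, rfl⟩

end

variable {E F : Type*} [NormedAddCommGroup E] [NormedSpace ℝ E] [FiniteDimensional ℝ E]
  [NormedAddCommGroup F] [NormedSpace ℝ F] [FiniteDimensional ℝ F]

/-- Invariance of domain at a point. -/
theorem image_mem_nhds (hd : Module.finrank ℝ E = Module.finrank ℝ F) {f : E → F} {s : Set E}
    {x : E} (hs : s ∈ 𝓝 x) (hc : ContinuousOn f s) (hi : InjOn f s) : f '' s ∈ 𝓝 (f x) := by
  let W := EuclideanSpace ℝ (Fin (Module.finrank ℝ E))
  let a : W ≃L[ℝ] E := ContinuousLinearEquiv.ofFinrankEq (by simp [W])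
  let b : F ≃L[ℝ] W := ContinuousLinearEquiv.ofFinrankEq (by simp [W, hd])
  have k := nhds_euclid (E := W) (f := fun w => b (f (a w))) (s := a ⁻¹' s) (x := a.symm x)
    (a.continuous.continuousAt.preimage_mem_nhds (by rwa [a.apply_symm_apply]))
    (b.continuous.comp_continuousOn (hc.comp a.continuous.continuousOn fun _ h => h))
    fun w hw w' hw' e => a.injective (hi hw hw' (b.injective e))
  simp only [a.apply_symm_apply] at k
  refine mem_of_superset (b.continuous.continuousAt.preimage_mem_nhds k) ?_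
  rintro y ⟨w, hw, e⟩
  exact ⟨a w, hw, b.injective e⟩

/-- Invariance of domain. -/
theorem isOpen_image (hd : Module.finrank ℝ E = Module.finrank ℝ F) {f : E → F} {U : Set E}
    (hU : IsOpen U) (hc : ContinuousOn f U) (hi : InjOn f U) : IsOpen (f '' U) := by
  rw [isOpen_iff_mem_nhds]
  rintro _ ⟨x, hx, rfl⟩
  exact image_mem_nhds hd (hU.mem_nhds hx) hc hi

/-- The image of the neighbourhood filter. -/
theorem map_nhds_eq (hd : Module.finrank ℝ E = Module.finrank ℝ F) {f : E → F} {s : Set E}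
    {x : E} (hs : s ∈ 𝓝 x) (hc : ContinuousOn f s) (hi : InjOn f s) :
    map f (𝓝 x) = 𝓝 (f x) :=
  le_antisymm (hc.continuousAt hs) fun t ht => mem_of_superset
    (image_mem_nhds hd (inter_mem hs ht) (hc.mono inter_subset_left) (hi.mono inter_subset_left))
    (by
      rintro _ ⟨y, hy, rfl⟩
      exact hy.2)

end Pool.Agent.MP_3ee8cb_gt.CZI
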