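import Pool.Agent.MP_3ee8cb_gt.CZI.Dom
import Pool.Agent.MP_3ee8cb_gt.D3GB.Spec

/-! One chart domain for finitely many Lipschitz charts of the sphere. -/

namespace Pool.Agent.MP_3ee8cb_gt.CZI

open Set Metric Filter Topology MeasureTheory
open D3GB (V bv)
open scoped NNReal

noncomputable section

variable {F : Type} [NormedAddCommGroup F]

/-- The local data: `c p` is a planar coordinate on the unit vectors in the ball of radius `r p`
about `p`, and it controls the point and `σ`. -/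
structure Loc (σ : V → F) (c : V → V → V) (r : V → ℝ) : Prop where
  pos : ∀ p, ‖p‖ = 1 → 0 < r p
  pl : ∀ p b, c p b 2 = 0
  cont : ∀ p, ‖p‖ = 1 → ContinuousOn (c p) (sphere 0 1 ∩ ball p (r p))
  lip : ∀ p, ‖p‖ = 1 → ∃ C : ℝ, ∀ b b', ‖b‖ = 1 → ‖b'‖ = 1 → b ∈ ball p (r p) → b' ∈ ball p (r p) →
    ‖b - b'‖ + ‖σ b - σ b'‖ ≤ C * ‖c p b - c p b'‖

/-- A piece of the atlas: the translate by `s` of the chart at `p`. -/
structure Pc (σ : V → F) (c : V → V → V) (κ : V → V) (p s : V) (ρ : ℝ) (O : Set V) : Prop where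
  op : IsOpen O
  pl : s 2 = 0
  mem : ∀ y ∈ O, ‖κ y‖ = 1 ∧ κ y ∈ ball p ρ ∧ c p (κ y) + s + y 2 • bv 2 = y
  inv : ∀ b (t : ℝ), ‖b‖ = 1 → b ∈ ball p ρ →
    c p b + s + t • bv 2 ∈ O ∧ κ (c p b + s + t • bv 2) = b
  lκ : ∃ L, LipschitzOnWith L κ O
  lσ : ∃ L, LipschitzOnWith L (fun y => σ (κ y)) O

/-- The atlas. -/
structure Atl (σ : V → F) (c : V → V → V) (r : V → ℝ) (Om Om0 : Set V) (κ : V → V) : Prop where
  op : IsOpen Om
  ms : MeasurableSet Om0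
  sub : Om0 ⊆ Om
  inv : ∀ x ∈ Om, ∀ s : ℝ, x + s • bv 2 ∈ Om ∧ κ (x + s • bv 2) = κ x
  inv0 : ∀ x ∈ Om0, ∀ s : ℝ, x + s • bv 2 ∈ Om0
  bij : BijOn (fun x => Real.exp (x 2) • κ x) Om0 {a | a ≠ 0}
  cpt : ∀ T : ℝ, ∃ Q, IsCompact Q ∧ Q ⊆ Om ∧ ∀ x ∈ Om0, |x 2| ≤ T → x ∈ Q
  loc : ∀ x ∈ Om, ∃ p s O, ‖p‖ = 1 ∧ x ∈ O ∧ O ⊆ Om ∧ Pc σ c κ p s (r p / 2) O

theorem bv2 : bv 2 2 = 1 := by simp [bv]

theorem bv0 : bv 2 0 = 0 := by simp [bv]

theorem co2 {u s : V} (hu : u 2 = 0) (hs : s 2 = 0) (t : ℝ) : (u + s + t • bv 2) 2 = t := by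
  simp [hu, hs, bv2]

theorem norm_pl {u : V} (hu : u 2 = 0) (t : ℝ) : ‖u‖ ≤ ‖u + t • bv 2‖ := by
  refine (pow_le_pow_iff_left₀ (norm_nonneg _) (norm_nonneg _) two_ne_zero).1 ?_
  simp only [EuclideanSpace.real_norm_sq_eq, Fin.sum_univ_three, bv, PiLp.add_apply,
    PiLp.smul_apply, hu]
  simp
  positivity

theorem un_exp {b : V} (hb : ‖b‖ = 1) (t : ℝ) : ‖Real.exp t • b‖ = Real.exp t := by
  rw [norm_smul, hb, mul_one, Real.norm_of_nonneg (Real.exp_pos t).le]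

variable {σ : V → F} {c : V → V → V} {r : V → ℝ}

theorem piece (h : Loc σ c r) {p : V} (hp : ‖p‖ = 1) {s : V} (hs : s 2 = 0) :
    ∃ κ O, Pc σ c κ p s (r p / 2) O := by
  have r0 := h.pos p hp
  have sb : ball p (r p / 2) ⊆ ball p (r p) := ball_subset_ball (by linarith)
  obtain ⟨C, hC⟩ := h.lip p hp
  let U : Set V := {a | a ≠ 0} ∩ (fun a : V => ‖a‖⁻¹ • a) ⁻¹' ball p (r p / 2)
  let π : V → V := fun a => c p (‖a‖⁻¹ • a) + s + Real.log ‖a‖ • bv 2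
  have cu : ContinuousOn (fun a : V => ‖a‖⁻¹ • a) {a | a ≠ 0} :=
    (continuous_norm.continuousOn.inv₀ fun a ha => norm_ne_zero_iff.2 ha).smul continuousOn_id
  have oU : IsOpen U := cu.isOpen_inter_preimage isOpen_ne isOpen_ball
  have u1 : ∀ a ∈ U, ‖‖a‖⁻¹ • a‖ = 1 := fun a ha => norm_smul_inv_norm ha.1
  have cπ : ContinuousOn π U :=
    (((h.cont p hp).comp (cu.mono inter_subset_left) fun a ha =>
      ⟨mem_sphere_zero_iff_norm.2 (u1 a ha), sb ha.2⟩).add continuousOn_const).add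
      ((continuous_norm.continuousOn.log fun a ha => norm_ne_zero_iff.2 ha.1).smul
        continuousOn_const)
  have key : ∀ a ∈ U, ∀ a' ∈ U, ‖‖a‖⁻¹ • a - ‖a'‖⁻¹ • a'‖ +
      ‖σ (‖a‖⁻¹ • a) - σ (‖a'‖⁻¹ • a')‖ ≤ C.toNNReal * dist (π a) (π a') := fun a ha a' ha' => by
    refine (hC _ _ (u1 a ha) (u1 a' ha') (sb ha.2) (sb ha'.2)).trans
      (mul_le_mul (Real.le_coe_toNNReal C) ?_ (norm_nonneg _) (NNReal.coe_nonneg _))
    have e : π a - π a' = c p (‖a‖⁻¹ • a) - c p (‖a'‖⁻¹ • a') +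
        (Real.log ‖a‖ - Real.log ‖a'‖) • bv 2 := by
      simp only [π, sub_smul]
      abel
    rw [dist_eq_norm, e]
    exact norm_pl (by simp [h.pl]) _
  have hi : InjOn π U := fun a ha a' ha' e => by
    have h1 := key a ha a' ha'
    rw [e, dist_self, mul_zero] at h1
    have h2 : ‖a‖⁻¹ • a = ‖a'‖⁻¹ • a' := sub_eq_zero.1 (norm_le_zero_iff.1 (by
      linarith [norm_nonneg (σ (‖a‖⁻¹ • a) - σ (‖a'‖⁻¹ • a'))]))
    have h3 := congrArg (fun x : V => x 2) e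
    simp only [π, co2 (h.pl _ _) hs] at h3
    have h4 : ‖a‖ = ‖a'‖ := Real.log_injOn_pos (norm_pos_iff.2 ha.1) (norm_pos_iff.2 ha'.1) h3
    rw [h4] at h2
    exact smul_right_injective V (inv_ne_zero (norm_ne_zero_iff.2 ha'.1)) h2
  have l : ∀ y ∈ U, Function.invFunOn π U (π y) = y := fun y hy => hi.leftInvOn_invFunOn hy
  refine ⟨fun x => ‖Function.invFunOn π U x‖⁻¹ • Function.invFunOn π U x, π '' U,
    isOpen_image rfl oU cπ hi, hs, ?_, fun b t hb hb' => ?_,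
    ⟨C.toNNReal, LipschitzOnWith.of_dist_le_mul ?_⟩, ⟨C.toNNReal, LipschitzOnWith.of_dist_le_mul ?_⟩⟩
  · rintro _ ⟨a, ha, rfl⟩
    rw [l a ha]
    exact ⟨u1 a ha, ha.2, by simp only [π, co2 (h.pl _ _) hs]⟩
  · have e1 : ‖Real.exp t • b‖⁻¹ • Real.exp t • b = b := by
      rw [un_exp hb, smul_smul, inv_mul_cancel₀ (Real.exp_pos t).ne', one_smul]
    have m : Real.exp t • b ∈ U := ⟨smul_ne_zero (Real.exp_pos t).ne' (by
      rintro rfl
      simp at hb), by rwa [mem_preimage, e1]⟩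
    have e2 : π (Real.exp t • b) = c p b + s + t • bv 2 := by
      simp only [π]
      rw [e1, un_exp hb, Real.log_exp]
    rw [← e2, l _ m]
    exact ⟨⟨_, m, rfl⟩, e1⟩
  · rintro _ ⟨a, ha, rfl⟩ _ ⟨a', ha', rfl⟩
    rw [l a ha, l a' ha', dist_eq_norm]
    linarith [key a ha a' ha', norm_nonneg (σ (‖a‖⁻¹ • a) - σ (‖a'‖⁻¹ • a'))]
  · rintro _ ⟨a, ha, rfl⟩ _ ⟨a', ha', rfl⟩
    rw [l a ha, l a' ha', dist_eq_norm]
    linarith [key a ha a' ha', norm_nonneg (‖a‖⁻¹ • a - ‖a'‖⁻¹ • a')]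

theorem Pc.shift {κ : V → V} {p s : V} {ρ : ℝ} {O : Set V} (P : Pc σ c κ p s ρ O) {x : V}
    (hx : x ∈ O) (t : ℝ) : x + t • bv 2 ∈ O ∧ κ (x + t • bv 2) = κ x := by
  obtain ⟨h1, h2, h3⟩ := P.mem x hx
  have e : x + t • bv 2 = c p (κ x) + s + (x 2 + t) • bv 2 := by
    rw [add_smul, ← add_assoc, h3]
  rw [e]
  exact P.inv _ _ h1 h2

theorem Pc.congr {κ κ' : V → V} {p s : V} {ρ : ℝ} {O : Set V} (P : Pc σ c κ p s ρ O)
    (e : ∀ x ∈ O, κ' x = κ x) : Pc σ c κ' p s ρ O := by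
  obtain ⟨L, hL⟩ := P.lκ
  obtain ⟨L', hL'⟩ := P.lσ
  exact ⟨P.op, P.pl, fun y hy => by rw [e y hy]; exact P.mem y hy, fun b t hb hb' =>
    ⟨(P.inv b t hb hb').1, (e _ (P.inv b t hb hb').1).trans (P.inv b t hb hb').2⟩,
    ⟨L, fun x hx y hy => by rw [e x hx, e y hy]; exact hL hx hy⟩,
    ⟨L', fun x hx y hy => by
      dsimp only
      rw [e x hx, e y hy]
      exact hL' hx hy⟩⟩

theorem atlas (h : Loc σ c r) : ∃ Om Om0 κ, Atl σ c r Om Om0 κ := by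
  classical
  obtain ⟨t, t1, t2⟩ := (isCompact_sphere (0 : V) 1).elim_nhds_subcover (fun p => ball p (r p / 4))
    fun p hp => ball_mem_nhds p (by linarith [h.pos p (mem_sphere_zero_iff_norm.1 hp)])
  let p : Fin t.card → V := fun i => t.equivFin.symm i
  have p1 : ∀ i, ‖p i‖ = 1 := fun i => mem_sphere_zero_iff_norm.1 (t1 _ (t.equivFin.symm i).2)
  have cov : ∀ b : V, ‖b‖ = 1 → ∃ i, b ∈ ball (p i) (r (p i) / 4) := fun b hb => by
    obtain ⟨q, hq, hb'⟩ := mem_iUnion₂.1 (t2 (mem_sphere_zero_iff_norm.2 hb))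
    exact ⟨t.equivFin ⟨q, hq⟩, by simpa [p] using hb'⟩
  have kc : ∀ i (ρ : ℝ), ρ < r (p i) → IsCompact (sphere (0 : V) 1 ∩ closedBall (p i) ρ) ∧
      ContinuousOn (c (p i)) (sphere (0 : V) 1 ∩ closedBall (p i) ρ) := fun i ρ hρ =>
    ⟨(isCompact_sphere _ _).inter_right isClosed_closedBall, (h.cont _ (p1 i)).mono
      (inter_subset_inter_right _ (closedBall_subset_ball hρ))⟩
  have bd : ∀ i, ∃ M : ℝ, ∀ b ∈ sphere (0 : V) 1 ∩ closedBall (p i) (r (p i) / 2),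
      ‖c (p i) b‖ ≤ M := fun i =>
    (kc i _ (half_lt_self (h.pos _ (p1 i)))).1.exists_bound_of_continuousOn
      (kc i _ (half_lt_self (h.pos _ (p1 i)))).2
  choose M hM using bd
  obtain ⟨N, hN⟩ := (finite_range M).bddAbove
  let s : Fin t.card → V := fun i => ((i : ℝ) * (2 * |N| + 1)) • bv 0
  have s2 : ∀ i, s i 2 = 0 := fun i => by simp [s, bv]
  choose κ O P using fun i => piece h (p1 i) (s2 i)
  have strip : ∀ i, ∀ x ∈ O i, |x 0 - (i : ℝ) * (2 * |N| + 1)| ≤ |N| := fun i x hx => by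
    obtain ⟨h1, h2, h3⟩ := (P i).mem x hx
    have e : x 0 - (i : ℝ) * (2 * |N| + 1) = c (p i) (κ i x) 0 := by
      nth_rewrite 1 [← h3]
      simp [s, bv]
    rw [e]
    exact ((PiLp.norm_apply_le (c (p i) (κ i x)) 0).trans (hM i _ ⟨mem_sphere_zero_iff_norm.2 h1,
      ball_subset_closedBall h2⟩)).trans ((hN ⟨i, rfl⟩).trans (le_abs_self N))
  have dj : ∀ i j x, x ∈ O i → x ∈ O j → i = j := fun i j x hi hj => by
    have a := abs_le.1 (strip i x hi)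
    have b := abs_le.1 (strip j x hj)
    have n := abs_nonneg N
    have k : ∀ u v : ℕ, u < v → (u : ℝ) + 1 ≤ v := fun u v huv => by exact_mod_cast huv
    rcases lt_trichotomy (i : ℕ) j with e | e | e
    · nlinarith [k _ _ e]
    · exact Fin.ext e
    · nlinarith [k _ _ e]
  let k : V → V := fun x => if hx : ∃ i, x ∈ O i then κ hx.choose x else 0
  have ek : ∀ i, ∀ x ∈ O i, k x = κ i x := fun i x hx => by
    have hx' : ∃ i, x ∈ O i := ⟨i, hx⟩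
    simp only [k, dif_pos hx']
    rw [dj _ _ x hx'.choose_spec hx]
  replace P : ∀ i, Pc σ c k (p i) (s i) (r (p i) / 2) (O i) := fun i => (P i).congr (ek i)
  have ck : ∀ i, ContinuousOn k (O i) := fun i => (P i).lκ.choose_spec.continuousOn
  let B : Fin t.card → Set V := fun i => ball (p i) (r (p i) / 4)
  have BB : ∀ i, B i ⊆ ball (p i) (r (p i) / 2) := fun i =>
    ball_subset_ball (by linarith [h.pos _ (p1 i)])
  refine ⟨⋃ i, O i, ⋃ i, (O i ∩ k ⁻¹' B i) \ ⋃ j ∈ {j | j < i}, O i ∩ k ⁻¹' B j, k,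
    isOpen_iUnion fun i => (P i).op, MeasurableSet.iUnion fun i => MeasurableSet.diff
      ((ck i).isOpen_inter_preimage (P i).op isOpen_ball).measurableSet
      (isOpen_biUnion fun j _ => (ck i).isOpen_inter_preimage (P i).op isOpen_ball).measurableSet,
    iUnion_mono fun i x hx => hx.1.1, fun x hx u => ?_, fun x hx u => ?_,
    ⟨fun x hx => ?_, fun x hx y hy e => ?_, fun a ha => ?_⟩, fun T => ?_, fun x hx => ?_⟩
  · obtain ⟨i, hi⟩ := mem_iUnion.1 hx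
    exact ⟨mem_iUnion.2 ⟨i, ((P i).shift hi u).1⟩, ((P i).shift hi u).2⟩
  · obtain ⟨i, hi, hi'⟩ := mem_iUnion.1 hx
    obtain ⟨a1, a2⟩ := (P i).shift hi.1 u
    refine mem_iUnion.2 ⟨i, ⟨a1, by rw [mem_preimage, a2]; exact hi.2⟩, fun hh => hi' ?_⟩
    obtain ⟨j, hj, hj'⟩ := mem_iUnion₂.1 hh
    exact mem_iUnion₂.2 ⟨j, hj, hi.1, by rw [mem_preimage, ← a2]; exact hj'.2⟩
  · obtain ⟨i, hi, -⟩ := mem_iUnion.1 hx
    refine smul_ne_zero (Real.exp_pos _).ne' fun e => ?_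
    have := ((P i).mem x hi.1).1
    simp [e] at this
  · obtain ⟨i, hi, hi'⟩ := mem_iUnion.1 hx
    obtain ⟨j, hj, hj'⟩ := mem_iUnion.1 hy
    obtain ⟨a1, -, a3⟩ := (P i).mem x hi.1
    obtain ⟨b1, -, b3⟩ := (P j).mem y hj.1
    have e1 : x 2 = y 2 := by
      have := congrArg norm e
      simp only [un_exp a1, un_exp b1] at this
      exact Real.exp_injective this
    dsimp only at e
    rw [e1] at e
    have e2 : k x = k y := smul_right_injective V (Real.exp_pos _).ne' e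
    have e3 : i = j := by
      rcases lt_trichotomy i j with l | l | l
      · exact (hj' (mem_iUnion₂.2 ⟨i, l, hj.1, by rw [mem_preimage, ← e2]; exact hi.2⟩)).elim
      · exact l
      · exact (hi' (mem_iUnion₂.2 ⟨j, l, hi.1, by rw [mem_preimage, e2]; exact hj.2⟩)).elim
    subst e3
    rw [← a3, ← b3, e2, ← e1]
  · have u1 : ‖‖a‖⁻¹ • a‖ = 1 := norm_smul_inv_norm ha
    obtain ⟨i, hi, hm⟩ := wellFounded_lt.has_min {i | ‖a‖⁻¹ • a ∈ B i} (cov _ u1)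
    obtain ⟨a1, a2⟩ := (P i).inv _ (Real.log ‖a‖) u1 (BB i hi)
    refine ⟨_, mem_iUnion.2 ⟨i, ⟨a1, by rw [mem_preimage, a2]; exact hi⟩, fun hh => ?_⟩, ?_⟩
    · obtain ⟨j, hj, hj'⟩ := mem_iUnion₂.1 hh
      exact hm j (by have := hj'.2; rwa [mem_preimage, a2] at this) hj
    · dsimp only
      rw [a2, co2 (h.pl _ _) (s2 i), Real.exp_log (norm_pos_iff.2 ha), smul_smul,
        mul_inv_cancel₀ (norm_ne_zero_iff.2 ha), one_smul]
  · have q4 : ∀ i, r (p i) / 4 < r (p i) / 2 := fun i => by linarith [h.pos _ (p1 i)]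
    refine ⟨⋃ i, (fun x : V × ℝ => c (p i) x.1 + s i + x.2 • bv 2) ''
      ((sphere (0 : V) 1 ∩ closedBall (p i) (r (p i) / 4)) ×ˢ Icc (-T) T),
      isCompact_iUnion fun i => ?_, iUnion_mono fun i => ?_, fun x hx hT => ?_⟩
    · have := kc i _ ((q4 i).trans (half_lt_self (h.pos _ (p1 i))))
      exact (this.1.prod isCompact_Icc).image_of_continuousOn
        (((this.2.comp continuousOn_fst fun _ hx => hx.1).add continuousOn_const).add
          (continuousOn_snd.smul continuousOn_const))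
    · rintro _ ⟨x, hx, rfl⟩
      exact ((P i).inv _ _ (mem_sphere_zero_iff_norm.1 hx.1.1)
        (closedBall_subset_ball (q4 i) hx.1.2)).1
    · obtain ⟨i, hi, -⟩ := mem_iUnion.1 hx
      obtain ⟨a1, -, a3⟩ := (P i).mem x hi.1
      exact mem_iUnion.2 ⟨i, (k x, x 2), ⟨⟨mem_sphere_zero_iff_norm.2 a1,
        ball_subset_closedBall hi.2⟩, abs_le.1 hT⟩, a3⟩
  · obtain ⟨i, hi⟩ := mem_iUnion.1 hx
    exact ⟨p i, s i, O i, p1 i, hi, subset_iUnion O i, P i⟩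

variable {Om Om0 : Set V} {κ : V → V}

theorem Atl.unit (A : Atl σ c r Om Om0 κ) {x : V} (hx : x ∈ Om) : ‖κ x‖ = 1 := by
  obtain ⟨p, s, O, -, h, -, P⟩ := A.loc x hx
  exact (P.mem x h).1

theorem Atl.lκ (A : Atl σ c r Om Om0 κ) : LocallyLipschitzOn Om κ := fun x hx => by
  obtain ⟨p, s, O, -, h, -, P⟩ := A.loc x hx
  obtain ⟨L, hL⟩ := P.lκ
  exact ⟨L, O, mem_nhdsWithin_of_mem_nhds (P.op.mem_nhds h), hL⟩

theorem Atl.lσ (A : Atl σ c r Om Om0 κ) : LocallyLipschitzOn Om fun y => σ (κ y) := fun x hx => by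
  obtain ⟨p, s, O, -, h, -, P⟩ := A.loc x hx
  obtain ⟨L, hL⟩ := P.lσ
  exact ⟨L, O, mem_nhdsWithin_of_mem_nhds (P.op.mem_nhds h), hL⟩

end

end Pool.Agent.MP_3ee8cb_gt.CZI
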