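import Pool.Agent.MP_3ee8cb_gt.CZI.GeoC
import Pool.Agent.MP_3ee8cb_gt.CZI.Atlas
import Pool.Agent.MP_3ee8cb_gt.CZ.Spec

/-! The atlas of a Lipschitz front. -/

namespace Pool.Agent.MP_3ee8cb_gt.CZI

open Set Metric Filter Topology D3
open D3GB (trip bv)
open D3MO (S2)
open CZK (Km)
open scoped RealInnerProductSpace

theorem atl_of {σ : V → V × V} {c : V → V → V} {r : V → ℝ} {Om Om0 : Set V} {k : V → V}
    (A : Atl σ c r Om Om0 k) : ∃ κ : V → S2, (∀ v ∈ Om, (κ v).1 = k v) ∧ CZ.Atl (Km κ) Om Om0 := by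
  classical
  let κ : V → S2 := fun v => if h : v ∈ Om then ⟨k v, mem_sphere_zero_iff_norm.2 (A.unit h)⟩ else
    ⟨bv 0, by simp [bv]⟩
  have e : ∀ v ∈ Om, (κ v).1 = k v := fun v hv => by simp only [κ, dif_pos hv]
  have eK : EqOn (Km κ) (fun v => Real.exp (v 2) • k v) Om := fun v hv => by rw [Km, e v hv]
  have lK : LocallyLipschitzOn Om (Km κ) := fun v hv => by
    obtain ⟨L, s, hs, hL⟩ := CZP.ll_smul (CZP.ll_c1 Real.contDiff_exp l2) A.lκ hv
    refine ⟨L, s ∩ Om, inter_mem hs self_mem_nhdsWithin, fun y hy z hz => ?_⟩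
    rw [eK hy.2, eK hz.2]
    exact hL hy.1 hz.1
  have nK : ∀ v, ‖Km κ v‖ = Real.exp (v 2) := fun v =>
    un_exp (mem_sphere_zero_iff_norm.1 (κ v).2) _
  have iK : ∀ v ∈ Om, ∃ U, IsOpen U ∧ v ∈ U ∧ U ⊆ Om ∧ InjOn (Km κ) U := fun v hv => by
    obtain ⟨p, s, U, -, h1, h2, P⟩ := A.loc v hv
    refine ⟨U, P.op, h1, h2, fun y hy z hz h => ?_⟩
    have h3 : y 2 = z 2 := Real.exp_injective (by rw [← nK, ← nK, h])
    rw [eK (h2 hy), eK (h2 hz)] at h
    dsimp only at h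
    rw [h3] at h
    rw [← (P.mem y hy).2.2, ← (P.mem z hz).2.2,
      smul_right_injective _ (Real.exp_pos _).ne' h, h3]
  refine ⟨κ, e, A.op, A.ms, A.sub, fun u hu s => (A.inv u hu s).1, A.inv0, fun u s => ?_,
    fun u _ => nK u, lK, fun u hu => ?_, fun u hu => ?_, A.bij.congr (eK.mono A.sub).symm, A.cpt⟩
  · have : κ (u + s • bv 2) = κ u := by
      by_cases hu : u ∈ Om
      · exact Subtype.ext (by rw [e _ (A.inv u hu s).1, e _ hu, (A.inv u hu s).2])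
      · have h' : u + s • bv 2 ∉ Om := fun h => hu (by simpa using (A.inv _ h (-s)).1)
        simp only [κ, dif_neg hu, dif_neg h']
    rw [Km, Km, this, CZK.tm2, smul_smul, ← Real.exp_add, add_comm s]
  · obtain ⟨U, h1, h2, h3, h4⟩ := iK u hu
    exact map_nhds_eq rfl (h1.mem_nhds h2) (lK.continuousOn.mono h3) h4
  · obtain ⟨U, h1, h2, -, h4⟩ := iK u hu
    exact ⟨U, h1.mem_nhds h2, h4⟩

theorem satl : CZ.SATL := by
  intro m m' φ a ho hj ho' hj' h0 hn ha hL x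
  choose! L r C r0 C0 L2 lp ps using fun p (hp : ‖p‖ = 1) => local_data ho' h0 ha hL x hp
  have c0 : ContinuousOn (fun b => φ (x, b)) {q | q ≠ 0} :=
    h0.cont.comp (Continuous.prodMk_right x).continuousOn fun _ h => h
  classical
  let c : V → V → V := fun p b => if ‖p‖ = 1 then L p (φ (x, b)) else 0
  have ec : ∀ p, ‖p‖ = 1 → ∀ b, c p b = L p (φ (x, b)) := fun p hp b => if_pos hp
  obtain ⟨Om, Om0, k, A⟩ := atlas (σ := fun b => φ (x, b)) (c := c) (r := r)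
    ⟨r0, fun p b => by
      by_cases hp : ‖p‖ = 1
      · rw [ec p hp, L2 p hp]
      · simp [c, hp], fun p hp => by
      rw [funext (ec p hp)]
      exact (L p).continuous.comp_continuousOn (c0.mono fun b hb =>
        D3NB.ne_of_unit (mem_sphere_zero_iff_norm.1 hb.1)), fun p hp =>
      ⟨C p, by simpa only [ec p hp] using lp p hp⟩⟩
  obtain ⟨κ, e, B⟩ := atl_of A
  have F : Fam φ x k Om := ⟨A.op, fun v hv => A.unit hv, A.inv, A.lκ, A.lσ⟩
  have eP : EqOn (CZ.PK m' (fr φ x) (Km κ)) (mf m' φ x k) Om := fun v hv => by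
    rw [CZ.PK, Km, e v hv, D3NB.Ph_exp (A.unit hv)]
    rfl
  have ev : ∀ u ∈ Om, CZ.PK m' (fr φ x) (Km κ) =ᶠ[𝓝 u] mf m' φ x k := fun u hu =>
    mem_of_superset (A.op.mem_nhds hu) eP
  refine ⟨κ, Om, Om0, B, c0, fun t q ht hq => ?_, fun q hq => h0.norm (x, q) hq,
    fun v hv => ?_, fun u hu => ?_, fun u hu => ?_, fun u hu hd f hf => ?_, fun u hu hd => ?_⟩
  · rcases ht.lt_or_gt with h | h
    · have h1 := h0.hom (-t) x (-q) (neg_pos.2 h) (neg_ne_zero.2 hq)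
      rw [hn x q hq, neg_smul_neg, neg_smul_neg] at h1
      exact h1
    · exact h0.hom t x q h hq
  · obtain ⟨M, s, hs, hM⟩ := F.lip ho' hv
    refine ⟨M, s ∩ Om, inter_mem hs self_mem_nhdsWithin, fun y hy z hz => ?_⟩
    rw [eP hy.2, eP hz.2]
    exact hM hy.1 hz.1
  · obtain ⟨p, s, U, hp, h1, h2, P⟩ := A.loc u hu
    refine ⟨fun ξ => L p ξ + s, (L p).contDiff.add contDiff_const, ?_⟩
    filter_upwards [P.op.mem_nhds h1] with v hv
    rw [D3AR.un, Km, e v (h2 hv), D3NB.uexp (P.mem v hv).1, eq_sub_iff_add_eq]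
    exact ec p hp _ ▸ (P.mem v hv).2.2
  · obtain ⟨M, hM⟩ := F.con ho hj ho' h0 hL hu
    refine ⟨M, ?_⟩
    filter_upwards [hM, (A.op.prod A.op).mem_nhds (mk_mem_prod hu hu)] with p h1 h2 h3 h4
    rw [h3, h4, sub_self, sub_zero] at h1
    rwa [eP h2.1, eP h2.2]
  · have := F.dia hL hu (hd.hasFDerivAt.congr_of_eventuallyEq (ev u hu).symm) hf
    rwa [← eP hu] at this
  · have hD := hd.hasFDerivAt.congr_of_eventuallyEq (ev u hu).symm
    have fl : ∀ v ∈ Om, ∀ t : ℝ, ∀ᶠ y in 𝓝 v,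
        mf m' φ x k (y + t • bv 2) = m'.Z t (mf m' φ x k y) := fun v hv t =>
      mem_of_superset (A.op.mem_nhds hv) fun y hy => F.flow ho' hy t
    obtain ⟨hw, kw⟩ := A.inv u hu (-u 2)
    have d := D3NB.flow_fd ho' hD (fl u hu (-u 2))
    set w := u + (-u 2) • bv 2 with ew
    have w2 : w 2 = 0 := by rw [ew, CZK.tm2, add_neg_cancel]
    have eu : w + u 2 • bv 2 = u := by rw [ew, neg_smul, neg_add_cancel_right]
    have d' := D3NB.flow_fd ho' d (fl w hw (u 2))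
    have z := F.flow ho' hw (u 2)
    rw [eu] at d' z
    obtain ⟨p, s, U, hp, h1, h2, P⟩ := A.loc w hw
    have sb : ball p (r p / 2) ⊆ ball p (r p) := ball_subset_ball (by linarith [r0 p hp])
    have key := F.pos0 ho' hj' h0 ha hL hw w2 d (L := L p) (s := s) (C0 p hp) (by
      filter_upwards [P.op.mem_nhds h1] with v hv
      obtain ⟨a1, a2, a3⟩ := P.mem v hv
      obtain ⟨b1, b2, b3⟩ := P.mem w h1
      rw [ec p hp] at a3 b3
      refine ⟨a3, (le_add_of_nonneg_left (norm_nonneg _)).trans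
        ((lp p hp _ _ a1 b1 (sb a2) (sb b2)).trans (mul_le_mul_of_nonneg_left ?_ (C0 p hp)))⟩
      refine (norm_pl (by simp [L2 p hp]) (v 2 - w 2)).trans (le_of_eq (congrArg _ ?_))
      rw [eq_sub_of_add_eq (eq_sub_of_add_eq a3), eq_sub_of_add_eq (eq_sub_of_add_eq b3), sub_smul]
      abel) (ps p hp _ (sb (P.mem w h1).2.1)) (u 2)
    generalize (fderiv ℝ (m'.Z (-u 2)) (mf m' φ x k u)).comp
      (fderiv ℝ (CZ.PK m' (fr φ x) (Km κ)) u) = D at d' key
    rw [CZ.yy, CZ.Av, eP hu, hD.unique d', z]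
    exact key

end Pool.Agent.MP_3ee8cb_gt.CZI
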