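import Pool.Agent.MP_3ee8cb_gt.CZL.Spec
import Pool.Agent.MP_3ee8cb_gt.D3NB.Pt

/-! Local coordinates on a Lipschitz front. -/

namespace Pool.Agent.MP_3ee8cb_gt.CZI

open Set Metric Filter Topology D3
open D3GB (trip bv cr)
open scoped RealInnerProductSpace

variable {m m' : MF} {φ : V × V → V × V} {a : ℝ}

theorem nrm_le (ho : m.OK) (z : V × V) :
    ∃ M : ℝ, 0 < M ∧ ∀ ξ : V × V, ‖ξ‖ ≤ M * (‖m.hor z ξ‖ + ‖m.ver z ξ‖) := by
  refine ⟨1 + ‖m.R z.1‖ + ‖(m.om z.1).flip z.2‖ * ‖m.R z.1‖, by positivity, fun ξ => ?_⟩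
  have h1 : ‖ξ.1‖ ≤ ‖m.R z.1‖ * ‖m.hor z ξ‖ := by
    have := (m.R z.1).le_opNorm (m.hor z ξ)
    rwa [show m.R z.1 (m.hor z ξ) = ξ.1 from ho.RS _ _] at this
  have h2 : ‖ξ.2‖ ≤ ‖m.ver z ξ‖ + ‖(m.om z.1).flip z.2‖ * ‖ξ.1‖ := by
    have e : ξ.2 = m.ver z ξ - (m.om z.1).flip z.2 ξ.1 := (add_sub_cancel_right _ _).symm
    rw [e]
    exact (norm_sub_le _ _).trans (add_le_add le_rfl (ContinuousLinearMap.le_opNorm _ _))
  have h3 := mul_le_mul_of_nonneg_left h1 (norm_nonneg ((m.om z.1).flip z.2))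
  have p1 := norm_nonneg (m.hor z ξ)
  have p2 := norm_nonneg (m.ver z ξ)
  have p3 := norm_nonneg (m.R z.1)
  have p4 := mul_nonneg (norm_nonneg ((m.om z.1).flip z.2)) p3
  rw [Prod.norm_def]
  refine max_le ?_ ?_ <;> nlinarith [mul_nonneg p3 p2, mul_nonneg p4 p2, mul_nonneg p4 p1,
    mul_nonneg p3 p1]

theorem tend (x p : V) {P : (V × V) × V × V → Prop} (h : ∀ᶠ q in 𝓝[CZL.U2] ((x, p), (x, p)), P q) :
    ∀ᶠ q : V × V in 𝓝 (p, p), ‖q.1‖ = 1 → ‖q.2‖ = 1 → P ((x, q.1), (x, q.2)) := by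
  have c : ContinuousAt (fun q : V × V => ((x, q.1), (x, q.2))) (p, p) := by fun_prop
  filter_upwards [c.eventually (eventually_nhdsWithin_iff.1 h)] with q hq h1 h2
  exact hq ⟨h1, h2⟩

/-- The two point inequality in one fibre. -/
theorem fib (hL : CZL.LIPF m m' φ a) (x : V) {p : V} (hp : ‖p‖ = 1) : ∃ c : ℝ, 0 < c ∧
    ∀ t ε : ℝ, 0 < ε → ∀ᶠ q : V × V in 𝓝 (p, p), ‖q.1‖ = 1 → ‖q.2‖ = 1 →
      c * ‖q.2 - q.1‖ ^ 2 + a ^ 2 * ‖m'.hor (m'.Z t (φ (x, p)))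
        (m'.Z t (φ (x, q.2)) - m'.Z t (φ (x, q.1)))‖ ^ 2 ≤ (1 + ε) * ‖m'.ver (m'.Z t (φ (x, p)))
        (m'.Z t (φ (x, q.2)) - m'.Z t (φ (x, q.1)))‖ ^ 2 := by
  obtain ⟨c, hc, h⟩ := hL (x, p) hp
  refine ⟨c, hc, fun t ε hε => ?_⟩
  obtain ⟨C, hC⟩ := h t ε hε
  filter_upwards [tend x p hC] with q hq h1 h2
  simpa using (hq h1 h2).1

theorem cramer (w e f ν : V) (h : trip w e f = 1) :
    ν = trip ν e f • w + trip w ν f • e + trip w e ν • f := by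
  have k : trip w e f • ν = trip ν e f • w + trip w ν f • e + trip w e ν • f := by
    refine D3GB.RP2.ext3 ?_ ?_ ?_ <;>
    · simp only [trip, PiLp.add_apply, PiLp.smul_apply, smul_eq_mul]
      ring
  rwa [h, one_smul] at k

theorem trip_det (w e f ν ν' : V) : trip w e f * trip w ν ν' =
    trip w ν f * trip w e ν' - trip w ν' f * trip w e ν := by
  simp only [trip]
  ring

/-- The planar coordinate at a unit vector. -/
theorem coord (z : V × V) (hz : ‖z.2‖ = 1) : ∃ (L : V × V →L[ℝ] V) (N : ℝ), 0 < N ∧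
    (∀ ξ, L ξ 2 = 0) ∧ (∀ ξ, ‖m.ver z ξ‖ ≤ |⟪z.2, m.ver z ξ⟫| + N * ‖L ξ‖) ∧
      ∀ ξ η, L ξ = bv 0 → L η = bv 1 → trip z.2 (m.ver z ξ) (m.ver z η) = 1 := by
  obtain ⟨e, f, he, hf, h1⟩ := D3NB.exists_perp hz
  let L : V × V →L[ℝ] V := ((innerSL ℝ (cr f z.2)).comp (m.ver z)).smulRight (bv 0) +
    ((innerSL ℝ (cr z.2 e)).comp (m.ver z)).smulRight (bv 1)
  have eL : ∀ ξ, L ξ = trip z.2 (m.ver z ξ) f • bv 0 + trip z.2 e (m.ver z ξ) • bv 1 := fun ξ => by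
    have a1 : ⟪cr f z.2, m.ver z ξ⟫ = trip z.2 (m.ver z ξ) f := by
      rw [real_inner_comm, D3NB.in_cr]
      simp only [trip]
      ring
    have a2 : ⟪cr z.2 e, m.ver z ξ⟫ = trip z.2 e (m.ver z ξ) := by
      rw [real_inner_comm, D3NB.in_cr]
      simp only [trip]
      ring
    rw [← a1, ← a2]
    rfl
  have L0 : ∀ ξ, L ξ 0 = trip z.2 (m.ver z ξ) f := fun ξ => by simp [eL, bv]
  have L1 : ∀ ξ, L ξ 1 = trip z.2 e (m.ver z ξ) := fun ξ => by simp [eL, bv]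
  refine ⟨L, 1 + ‖e‖ + ‖f‖, by positivity, fun ξ => by simp [eL, bv], fun ξ => ?_,
    fun ξ η hξ hη => ?_⟩
  · have c := cramer z.2 e f (m.ver z ξ) h1
    have c1 : ⟪z.2, m.ver z ξ⟫ = trip (m.ver z ξ) e f := by
      nth_rewrite 1 [c]
      simp only [inner_add_right, inner_smul_right, he, hf, real_inner_self_eq_norm_sq, hz]
      ring
    have b0 : |trip z.2 (m.ver z ξ) f| ≤ ‖L ξ‖ := L0 ξ ▸ PiLp.norm_apply_le (L ξ) 0
    have b1 : |trip z.2 e (m.ver z ξ)| ≤ ‖L ξ‖ := L1 ξ ▸ PiLp.norm_apply_le (L ξ) 1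
    have n := norm_add₃_le (a := trip (m.ver z ξ) e f • z.2) (b := trip z.2 (m.ver z ξ) f • e)
      (c := trip z.2 e (m.ver z ξ) • f)
    rw [← c, norm_smul, norm_smul, norm_smul, hz, ← c1, Real.norm_eq_abs, Real.norm_eq_abs,
      Real.norm_eq_abs] at n
    nlinarith [mul_le_mul_of_nonneg_right b0 (norm_nonneg e),
      mul_le_mul_of_nonneg_right b1 (norm_nonneg f), norm_nonneg (L ξ)]
  · have := trip_det z.2 e f (m.ver z ξ) (m.ver z η)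
    rw [h1, one_mul, ← L0, ← L0, ← L1, ← L1, hξ, hη] at this
    rw [this]
    simp [bv]

theorem ver_in (ho : m.OK) (z ξ : V × V) : ⟪z.2, m.ver z ξ⟫ = ⟪z.2, ξ.2⟫ := by
  have h := ho.skew z.1 ξ.1 z.2 z.2
  rw [real_inner_comm] at h
  change ⟪z.2, ξ.2 + m.om z.1 ξ.1 z.2⟫ = _
  rw [inner_add_right]
  linarith

theorem unit_in {w₀ w w' : V} (h : ‖w‖ = 1) (h' : ‖w'‖ = 1) {η : ℝ} (h1 : ‖w - w₀‖ ≤ η)
    (h2 : ‖w' - w₀‖ ≤ η) : |⟪w₀, w' - w⟫| ≤ η * ‖w' - w‖ := by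
  have e : ⟪w₀, w' - w⟫ = -(⟪w - w₀, w' - w⟫ + ⟪w' - w₀, w' - w⟫) / 2 := by
    simp only [inner_sub_left, inner_sub_right, real_inner_self_eq_norm_sq, h, h',
      real_inner_comm w w']
    ring
  have a1 := abs_real_inner_le_norm (w - w₀) (w' - w)
  have a2 := abs_real_inner_le_norm (w' - w₀) (w' - w)
  have a3 := mul_le_mul_of_nonneg_right h1 (norm_nonneg (w' - w))
  have a4 := mul_le_mul_of_nonneg_right h2 (norm_nonneg (w' - w))
  rw [e, abs_le]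
  constructor <;> linarith [abs_le.1 (a1.trans a3), abs_le.1 (a2.trans a4)]

theorem sq_two {k x y : ℝ} (hk : 0 < k) (hy : 0 ≤ y) (h : k * x ^ 2 ≤ 2 * y ^ 2) :
    x ≤ (1 + 2 / k) * y := by
  refine le_of_sq_le_sq ?_ (by positivity)
  have h1 : x ^ 2 ≤ 2 / k * y ^ 2 := by
    rw [div_mul_eq_mul_div, le_div_iff₀ hk]
    linarith
  have h2 : 0 < 2 / k := by positivity
  nlinarith [mul_nonneg h2.le (sq_nonneg y), mul_nonneg (sq_nonneg (2 / k)) (sq_nonneg y),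
    sq_nonneg y]

/-- The local data at a point of the fibre. -/
theorem local_data (ho : m'.OK) (h0 : CZO.C0F m m' φ) (ha : 0 < a) (hL : CZL.LIPF m m' φ a)
    (x : V) {p : V} (hp : ‖p‖ = 1) : ∃ (L : V × V →L[ℝ] V) (r C : ℝ), 0 < r ∧ 0 ≤ C ∧
    (∀ ξ, L ξ 2 = 0) ∧ (∀ b b', ‖b‖ = 1 → ‖b'‖ = 1 → b ∈ ball p r → b' ∈ ball p r →
      ‖b - b'‖ + ‖φ (x, b) - φ (x, b')‖ ≤ C * ‖L (φ (x, b)) - L (φ (x, b'))‖) ∧
    ∀ b ∈ ball p r, ∀ ξ η, ‖ξ‖ ≤ C → ‖η‖ ≤ C → L ξ = bv 0 → L η = bv 1 →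
      0 < trip (φ (x, b)).2 (m'.ver (φ (x, b)) ξ) (m'.ver (φ (x, b)) η) := by
  have p0 := D3NB.ne_of_unit hp
  set z := φ (x, p) with hz
  have z1 : ‖z.2‖ = 1 := (h0.norm (x, p) p0).trans hp
  obtain ⟨L, N, hN, L2, hv, ht⟩ := coord (m := m') z z1
  obtain ⟨M, hM, hM'⟩ := nrm_le ho z
  obtain ⟨c, hc, hf⟩ := fib hL x hp
  have hf := hf 0 1 one_pos
  simp only [ho.zero, ← hz] at hf
  have cσ : ContinuousAt (fun b => φ (x, b)) p :=
    ContinuousAt.comp (f := fun b : V => (x, b))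
      (h0.cont.continuousAt ((isOpen_ne.preimage continuous_snd).mem_nhds p0)) (by fun_prop)
  set M₁ := M * (2 + 2 / a ^ 2) with hM₁
  have M1 : 0 < M₁ := by positivity
  set C := (1 + 2 / c + M₁) * (2 * N) with hC
  have e1 : ∀ᶠ b in 𝓝 p, ‖(φ (x, b)).2 - z.2‖ ≤ 1 / (2 * M₁) :=
    (cσ.snd.eventually (closedBall_mem_nhds z.2 (by positivity))).mono fun b hb =>
      mem_closedBall_iff_norm.1 hb
  have kK : IsCompact ((closedBall (0 : V × V) C ∩ L ⁻¹' {bv 0}) ×ˢ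
      (closedBall (0 : V × V) C ∩ L ⁻¹' {bv 1})) :=
    ((isCompact_closedBall _ _).inter_right (isClosed_singleton.preimage L.continuous)).prod
      ((isCompact_closedBall _ _).inter_right (isClosed_singleton.preimage L.continuous))
  have cv : Continuous fun q : (V × V) × V × V => m'.ver q.1 q.2 :=
    continuous_snd.snd.add (((ho.com.continuous.comp continuous_fst.fst).clm_apply
      continuous_snd.fst).clm_apply continuous_fst.snd)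
  have ct : Continuous fun q : V × V × V => trip q.1 q.2.1 q.2.2 := by
    simp only [trip]
    fun_prop
  have e2 := cσ.eventually (kK.eventually_forall_of_forall_eventually (x₀ := z)
    (P := fun z y => 0 < trip z.2 (m'.ver z y.1) (m'.ver z y.2)) fun y hy =>
      (ct.comp (continuous_fst.snd.prodMk ((cv.comp (continuous_fst.prodMk
        continuous_snd.fst)).prodMk (cv.comp (continuous_fst.prodMk
          continuous_snd.snd))))).continuousAt.eventually (lt_mem_nhds (by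
            change 0 < trip z.2 (m'.ver z y.1) (m'.ver z y.2)
            rw [ht _ _ hy.1.2 hy.2.2]
            exact one_pos)))
  rw [nhds_prod_eq] at hf
  obtain ⟨s, hs, s', hs', hss⟩ := Filter.mem_prod_iff.1 hf
  obtain ⟨r, hr, hb⟩ := Metric.mem_nhds_iff.1 (inter_mem (inter_mem hs hs') (e1.and e2))
  refine ⟨L, r, C, hr, by positivity, L2, fun b b' h1 h2 h3 h4 => ?_,
    fun b h3 ξ η h4 h5 h6 h7 => (hb h3).2.2 (ξ, η)
      ⟨⟨mem_closedBall_zero_iff.2 h4, h6⟩, mem_closedBall_zero_iff.2 h5, h7⟩⟩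
  have k := hss (mk_mem_prod (hb h4).1.1 (hb h3).1.2) h2 h1
  dsimp only at k
  rw [← map_sub]
  set Δ := φ (x, b) - φ (x, b') with hΔ
  have n1 := norm_nonneg (m'.ver z Δ)
  have k1 : ‖b - b'‖ ≤ (1 + 2 / c) * ‖m'.ver z Δ‖ := sq_two hc n1 (by
    nlinarith [mul_nonneg (sq_nonneg a) (sq_nonneg ‖m'.hor z Δ‖)])
  have k2 : ‖m'.hor z Δ‖ ≤ (1 + 2 / a ^ 2) * ‖m'.ver z Δ‖ := sq_two (by positivity) n1 (by
    nlinarith [mul_nonneg hc.le (sq_nonneg ‖b - b'‖)])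
  have k3 : ‖Δ‖ ≤ M₁ * ‖m'.ver z Δ‖ := by
    have := mul_le_mul_of_nonneg_left k2 hM.le
    have h := hM' Δ
    rw [hM₁]
    nlinarith
  have k4 : |⟪z.2, m'.ver z Δ⟫| ≤ ‖m'.ver z Δ‖ / 2 := by
    rw [ver_in ho]
    have u := unit_in ((h0.norm (x, b') (D3NB.ne_of_unit h2)).trans h2)
      ((h0.norm (x, b) (D3NB.ne_of_unit h1)).trans h1) (hb h4).2.1 (hb h3).2.1
    refine u.trans ((mul_le_mul_of_nonneg_left ((norm_snd_le Δ).trans k3) (by positivity)).trans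
      (le_of_eq ?_))
    field_simp
  have k5 : ‖m'.ver z Δ‖ ≤ 2 * N * ‖L Δ‖ := by linarith [hv Δ]
  have k6 := mul_le_mul_of_nonneg_left k5 (show 0 ≤ 1 + 2 / c + M₁ by positivity)
  rw [hC]
  nlinarith

end Pool.Agent.MP_3ee8cb_gt.CZI
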