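import Pool.Agent.MP_3ee8cb_gt.CZI.GeoA
import Pool.Agent.MP_3ee8cb_gt.D3CT.RFr
import Pool.Agent.MP_3ee8cb_gt.CZP.Glue

/-! The moving front in a Lipschitz chart: contact property, diamond and orientation. -/

namespace Pool.Agent.MP_3ee8cb_gt.CZI

open Set Metric Filter Topology D3
open D3GB (trip bv cr)
open scoped RealInnerProductSpace

theorem mv {E F : Type} [NormedAddCommGroup E] [NormedSpace ℝ E] [NormedAddCommGroup F]
    [NormedSpace ℝ F] {A : E → F →L[ℝ] ℝ} {Θ : E → F} {f : E → ℝ} (hA : ContDiff ℝ 1 A)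
    (hΘ : ContDiff ℝ 1 Θ) (hf : ∀ q, HasFDerivAt f ((A q).comp (fderiv ℝ Θ q)) q) (q₀ : E) :
    ∃ C : ℝ, ∀ᶠ p : E × E in 𝓝 (q₀, q₀),
      |A p.1 (Θ p.2 - Θ p.1) - (f p.2 - f p.1)| ≤ C * ‖p.2 - p.1‖ ^ 2 := by
  obtain ⟨L, s, hs, hL⟩ := (hA.contDiffAt (x := q₀)).exists_lipschitzOnWith
  have hM : ∀ᶠ q in 𝓝 q₀, ‖fderiv ℝ Θ q‖ < ‖fderiv ℝ Θ q₀‖ + 1 :=
    (hΘ.continuous_fderiv one_ne_zero).norm.continuousAt.eventually (gt_mem_nhds (lt_add_one _))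
  obtain ⟨r, hr, hb⟩ := Metric.mem_nhds_iff.1 (inter_mem hs hM)
  refine ⟨L * (‖fderiv ℝ Θ q₀‖ + 1), ?_⟩
  rw [nhds_prod_eq]
  filter_upwards [prod_mem_prod (ball_mem_nhds q₀ hr) (ball_mem_nhds q₀ hr)] with p hp
  have sb : segment ℝ p.1 p.2 ⊆ ball q₀ r := (convex_ball q₀ r).segment_subset hp.1 hp.2
  have k := (convex_segment p.1 p.2).norm_image_sub_le_of_norm_hasFDerivWithin_le
    (f := fun q => A p.1 (Θ q) - f q) (f' := fun q => (A p.1 - A q).comp (fderiv ℝ Θ q))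
    (C := L * ‖p.2 - p.1‖ * (‖fderiv ℝ Θ q₀‖ + 1))
    (fun q _ => by
      rw [ContinuousLinearMap.sub_comp]
      exact (((A p.1).hasFDerivAt.comp q
        (hΘ.differentiable one_ne_zero q).hasFDerivAt).sub (hf q)).hasFDerivWithinAt)
    (fun q hq => by
      refine (ContinuousLinearMap.opNorm_comp_le _ _).trans
        (mul_le_mul ?_ (hb (sb hq)).2.le (norm_nonneg _) (by positivity))
      have h1 := hL.norm_sub_le (hb hp.1).1 (hb (sb hq)).1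
      have h2 : ‖p.1 - q‖ ≤ ‖p.2 - p.1‖ := by
        have := dist_add_dist_of_mem_segment hq
        rw [dist_eq_norm, dist_eq_norm, dist_eq_norm, norm_sub_rev p.1 p.2] at this
        linarith [norm_nonneg (q - p.2)]
      exact h1.trans (mul_le_mul_of_nonneg_left h2 L.2))
    (left_mem_segment ℝ _ _) (right_mem_segment ℝ _ _)
  rw [map_sub]
  rw [Real.norm_eq_abs] at k
  refine (le_of_eq (congrArg abs (by ring))).trans (k.trans (le_of_eq (by ring)))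

variable {m m' : MF} {φ : V × V → V × V} {a : ℝ}

/-- The contact form along the geodesics that issue from `x`. -/
theorem mv_exp (ho : m.OK) (hj : m.Jac) (x : V) (q₀ : ℝ × V) :
    ∃ C : ℝ, ∀ᶠ p : (ℝ × V) × ℝ × V in 𝓝 (q₀, q₀), ‖p.1.2‖ = 1 → ‖p.2.2‖ = 1 →
      |⟪(m.Z p.1.1 (x, p.1.2)).2, m.hor (m.Z p.1.1 (x, p.1.2))
        (m.Z p.2.1 (x, p.2.2) - m.Z p.1.1 (x, p.1.2))⟫ - (p.2.1 - p.1.1)| ≤
          C * ‖p.2 - p.1‖ ^ 2 := by
  let j : ℝ × V → ℝ × V × V := fun q => (q.1, x, q.2)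
  have cj : ContDiff ℝ 1 j := by fun_prop
  let T : ℝ × V → V × V := fun q => m.Z q.1 (x, q.2)
  have cT : ContDiff ℝ 1 T := ho.cZ.comp cj
  have dT : ∀ q ξ : ℝ × V, fderiv ℝ T q ξ =
      ξ.1 • m.vf (T q) + fderiv ℝ (m.Z q.1) (x, q.2) (0, ξ.2) := fun q ξ => by
    have d : HasFDerivAt j ((ContinuousLinearMap.fst ℝ ℝ V).prod
        ((0 : ℝ × V →L[ℝ] V).prod (ContinuousLinearMap.snd ℝ ℝ V))) q :=
      hasFDerivAt_fst.prodMk ((hasFDerivAt_const x q).prodMk hasFDerivAt_snd)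
    have d' : HasFDerivAt T _ q := (ho.cZ.differentiable one_ne_zero (j q)).hasFDerivAt.comp q d
    rw [d'.fderiv]
    exact D3NB.dZ2 ho q.1 (x, q.2) ξ.1 (0, ξ.2)
  let A : ℝ × V → (V × V) × ℝ →L[ℝ] ℝ := fun q =>
    ((innerSL ℝ (T q).2).comp (m.S (T q).1)).comp ((ContinuousLinearMap.fst ℝ V V).comp
      (ContinuousLinearMap.fst ℝ (V × V) ℝ)) -
        ((⟪q.2, q.2⟫ - 1) / 2) • ContinuousLinearMap.snd ℝ (V × V) ℝ
  have cA : ContDiff ℝ 1 A :=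
    ((((innerSL ℝ (E := V)).contDiff.comp cT.snd).clm_comp
      ((ho.cS.of_le (by norm_num)).comp cT.fst)).clm_comp contDiff_const).sub
        ((((contDiff_snd.inner ℝ contDiff_snd).sub contDiff_const).div_const 2).smul
          contDiff_const)
  obtain ⟨C, hC⟩ := mv (Θ := fun q => (T q, q.1)) (f := fun q => q.1 * (1 + ⟪q.2, q.2⟫) * (1 / 2))
    cA (cT.prodMk contDiff_fst) (fun q => by
      rw [((cT.differentiable one_ne_zero q).hasFDerivAt.prodMk hasFDerivAt_fst).fderiv]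
      refine ((hasFDerivAt_fst.mul ((hasFDerivAt_snd.inner ℝ hasFDerivAt_snd).const_add
        1)).mul_const (1 / 2)).congr_fderiv (ContinuousLinearMap.ext fun ξ => ?_)
      have h1 := (D3CT.RFr.in_J ho hj q.1 (x, q.2) (0, ξ.2)).2
      have h2 : ⟪(T q).2, (T q).2⟫ = ⟪q.2, q.2⟫ := by
        rw [real_inner_self_eq_norm_sq, real_inner_self_eq_norm_sq, hj.norm]
      have h3 : ⟪(T q).2, m.hor (T q) (fderiv ℝ T q ξ)⟫ = ξ.1 * ⟪q.2, q.2⟫ + q.1 * ⟪ξ.2, q.2⟫ := by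
        rw [dT, map_add, map_smul, D3NB.hor_vf ho, inner_add_right, inner_smul_right, h2]
        refine congrArg _ ((real_inner_comm _ _).trans (h1.trans ?_))
        simp [MF.hor]
      change _ = ⟪(T q).2, m.hor (T q) (fderiv ℝ T q ξ)⟫ - (⟪q.2, q.2⟫ - 1) / 2 * ξ.1
      rw [h3]
      simp [fderivInnerCLM_apply, real_inner_comm q.2 ξ.2]
      ring) q₀
  refine ⟨C, hC.mono fun p hp h1 h2 => (le_of_eq (congrArg abs ?_)).trans hp⟩
  change _ = ⟪(T p.1).2, m.hor (T p.1) (T p.2 - T p.1)⟫ - (⟪p.1.2, p.1.2⟫ - 1) / 2 * (p.2.1 - p.1.1)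
    - _
  simp only [real_inner_self_eq_norm_sq, h1, h2]
  ring

theorem two_pt {F : Type} [NormedAddCommGroup F] {f : V → F} {O : Set V} {u : V} (hO : IsOpen O)
    (hu : u ∈ O) (h : LocallyLipschitzOn O f) : ∃ M : ℝ, ∀ᶠ p : V × V in 𝓝 (u, u),
      ‖f p.2 - f p.1‖ ^ 2 ≤ M * ‖p.2 - p.1‖ ^ 2 := by
  obtain ⟨L, s, hs, hL⟩ := h hu
  rw [hO.nhdsWithin_eq hu] at hs
  refine ⟨L ^ 2, ?_⟩
  rw [nhds_prod_eq]
  filter_upwards [prod_mem_prod hs hs] with p hp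
  rw [← mul_pow]
  exact pow_le_pow_left₀ (norm_nonneg _) (hL.norm_sub_le hp.2 hp.1) 2

/-- A Lipschitz family of unit vectors over `x`, constant in the last coordinate. -/
structure Fam (φ : V × V → V × V) (x : V) (k : V → V) (O : Set V) : Prop where
  op : IsOpen O
  unit : ∀ v ∈ O, ‖k v‖ = 1
  inv : ∀ v ∈ O, ∀ s : ℝ, v + s • bv 2 ∈ O ∧ k (v + s • bv 2) = k v
  lk : LocallyLipschitzOn O k
  lσ : LocallyLipschitzOn O fun v => φ (x, k v)

/-- The moving front. -/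
def mf (m' : MF) (φ : V × V → V × V) (x : V) (k : V → V) (v : V) : V × V :=
  m'.Z (v 2) (φ (x, k v))

variable {x u : V} {k : V → V} {O : Set V}

theorem l2 : LocallyLipschitzOn O fun v : V => v 2 :=
  (EuclideanSpace.proj (𝕜 := ℝ) (2 : Fin 3) : V →L[ℝ] ℝ).lipschitz.locallyLipschitz.locallyLipschitzOn

theorem Fam.ck (h : Fam φ x k O) (hu : u ∈ O) : ContinuousAt k u :=
  h.lk.continuousOn.continuousAt (h.op.mem_nhds hu)

theorem ll_Z (ho : m.OK) {t : V → ℝ} {f : V → V × V} (ht : LocallyLipschitzOn O t)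
    (hf : LocallyLipschitzOn O f) : LocallyLipschitzOn O fun v => m.Z (t v) (f v) := by
  have := CZP.ll_c1 ho.cZ (CZP.ll_prod ht hf)
  exact this

theorem Fam.lip (h : Fam φ x k O) (ho : m'.OK) : LocallyLipschitzOn O (mf m' φ x k) := by
  have := ll_Z ho l2 h.lσ
  exact this

theorem Fam.con (h : Fam φ x k O) (ho : m.OK) (hj : m.Jac) (ho' : m'.OK) (h0 : CZO.C0F m m' φ)
    (hL : CZL.LIPF m m' φ a) (hu : u ∈ O) : ∃ C : ℝ, ∀ᶠ p : V × V in 𝓝 (u, u),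
      |⟪(mf m' φ x k p.1).2, m'.hor (mf m' φ x k p.1) (mf m' φ x k p.2 - mf m' φ x k p.1)⟫ -
        (p.2 2 - p.1 2)| ≤ C * ‖p.2 - p.1‖ ^ 2 := by
  let q : V → ℝ × V := fun v => (v 2, k v)
  let T : V → V × V := fun v => m.Z (v 2) (x, k v)
  have lq : LocallyLipschitzOn O q := CZP.ll_prod l2 h.lk
  have cj : ContDiff ℝ 1 fun q : ℝ × V => (q.1, x, q.2) :=
    contDiff_fst.prodMk (contDiff_const.prodMk contDiff_snd)
  have lT : LocallyLipschitzOn O T :=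
    CZP.ll_c1 (g := fun q : ℝ × V => m.Z q.1 (x, q.2)) (f := q) (ho.cZ.comp cj) lq
  have uT : ∀ v ∈ O, ‖(T v).2‖ = 1 := fun v hv => (hj.norm _ _).trans (h.unit v hv)
  have eT : ∀ v ∈ O, φ (T v) = mf m' φ x k v := fun v hv =>
    h0.flow _ (x, k v) (D3NB.ne_of_unit (h.unit v hv))
  obtain ⟨c, -, h1⟩ := hL (T u) (uT u hu)
  obtain ⟨C, h1⟩ := h1 0 1 one_pos
  obtain ⟨C', h2⟩ := mv_exp ho hj x (q u)
  obtain ⟨M1, h3⟩ := two_pt h.op hu lq
  obtain ⟨M2, h4⟩ := two_pt h.op hu lT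
  obtain ⟨M3, h5⟩ := two_pt h.op hu (h.lip ho')
  have pr : ∀ {F : Type} [NormedAddCommGroup F] {f : V → F}, LocallyLipschitzOn O f →
      Tendsto (fun p : V × V => (f p.1, f p.2)) (𝓝 (u, u)) (𝓝 (f u, f u)) := fun l =>
    (l.continuousOn.continuousAt (h.op.mem_nhds hu)).prodMap'
      (l.continuousOn.continuousAt (h.op.mem_nhds hu))
  refine ⟨|C| * (M2 + M3) + |C'| * M1, ?_⟩
  filter_upwards [(pr lT).eventually (eventually_nhdsWithin_iff.1 h1), (pr lq).eventually h2, h3,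
    h4, h5, (h.op.prod h.op).mem_nhds (mk_mem_prod hu hu)] with p k1 k2 k3 k4 k5 hp
  have k1 := (k1 ⟨uT _ hp.1, uT _ hp.2⟩).2
  have k2 : |⟪(T p.1).2, m.hor (T p.1) (T p.2 - T p.1)⟫ - (p.2 2 - p.1 2)| ≤
    C' * ‖q p.2 - q p.1‖ ^ 2 := k2 (h.unit _ hp.1) (h.unit _ hp.2)
  simp only [ho'.zero, eT _ hp.1, eT _ hp.2] at k1
  have k6 := k1.trans (mul_le_mul (le_abs_self C) (add_le_add k4 k5)
    (add_nonneg (sq_nonneg _) (sq_nonneg _)) (abs_nonneg C))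
  have k7 := k2.trans (mul_le_mul (le_abs_self C') k3 (sq_nonneg _) (abs_nonneg C'))
  refine (abs_sub_le _ ⟪(T p.1).2, m.hor (T p.1) (T p.2 - T p.1)⟫ _).trans
    ((add_le_add k6 k7).trans (le_of_eq ?_))
  generalize ‖p.2 - p.1‖ = y
  ring

theorem Fam.dia (h : Fam φ x k O) (hL : CZL.LIPF m m' φ a) (hu : u ∈ O) {D : V →L[ℝ] V × V}
    (hD : HasFDerivAt (mf m' φ x k) D u) {e : V} (he : e 2 = 0) :
    a * ‖m'.hor (mf m' φ x k u) (D e)‖ ≤ ‖m'.ver (mf m' φ x k u) (D e)‖ := by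
  obtain ⟨c, hc, hf⟩ := fib hL x (h.unit u hu)
  set P := mf m' φ x k with hP
  have l0 : Tendsto (fun s : ℝ => u + s • e) (𝓝[>] 0) (𝓝 u) := by
    have : Continuous fun s : ℝ => u + s • e := by fun_prop
    simpa using (this.tendsto 0).mono_left (nhdsWithin_le_nhds (s := Ioi 0))
  have tB := (hD.hasLineDerivAt e).tendsto_slope_zero_right
  have t1 := (((m'.hor (P u)).continuous.tendsto _).comp tB).norm.pow 2
  have t2 := (((m'.ver (P u)).continuous.tendsto _).comp tB).norm.pow 2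
  have k1 : ∀ ε : ℝ, 0 < ε →
      a ^ 2 * ‖m'.hor (P u) (D e)‖ ^ 2 ≤ (1 + ε) * ‖m'.ver (P u) (D e)‖ ^ 2 := fun ε hε => by
    refine le_of_tendsto_of_tendsto (t1.const_mul _) (t2.const_mul _) ?_
    filter_upwards [(tendsto_const_nhds.prodMk_nhds ((h.ck hu).tendsto.comp l0)).eventually
      (hf (u 2) ε hε), l0.eventually (h.op.mem_nhds hu)] with s k1 k2
    have k3 := k1 (h.unit u hu) (h.unit _ k2)
    have e1 : m'.Z (u 2) (φ (x, k (u + s • e))) = P (u + s • e) := by simp [hP, mf, he]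
    have e2 : m'.Z (u 2) (φ (x, k u)) = P u := rfl
    simp only [Function.comp, e1, e2] at k3
    simp only [Function.comp, map_smul, norm_smul, mul_pow]
    nlinarith [mul_le_mul_of_nonneg_left k3 (sq_nonneg ‖s⁻¹‖), mul_nonneg (sq_nonneg ‖s⁻¹‖)
      (mul_nonneg hc.le (sq_nonneg ‖k (u + s • e) - k u‖))]
  refine le_of_sq_le_sq ?_ (norm_nonneg _)
  rw [mul_pow]
  have t3 : Tendsto (fun ε : ℝ => (1 + ε) * ‖m'.ver (P u) (D e)‖ ^ 2) (𝓝[>] 0)
      (𝓝 (‖m'.ver (P u) (D e)‖ ^ 2)) := by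
    have : Continuous fun ε : ℝ => (1 + ε) * ‖m'.ver (P u) (D e)‖ ^ 2 := by fun_prop
    simpa using (this.tendsto 0).mono_left (nhdsWithin_le_nhds (s := Ioi 0))
  exact ge_of_tendsto t3 (eventually_mem_nhdsWithin.mono k1)

theorem dep {w ν ν' : V} (hw : ‖w‖ = 1) (h1 : ⟪ν, w⟫ = 0) (h2 : ⟪ν', w⟫ = 0)
    (h : trip w ν ν' = 0) : ∃ α β : ℝ, (α ≠ 0 ∨ β ≠ 0) ∧ α • ν + β • ν' = 0 := by
  obtain ⟨e, f, he, hf, h3⟩ := D3NB.exists_perp hw
  have dec : ∀ μ : V, ⟪μ, w⟫ = 0 → μ = trip w μ f • e + trip w e μ • f := fun μ hμ => by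
    have c := cramer w e f μ h3
    have c1 : ⟪w, μ⟫ = trip μ e f := by
      nth_rewrite 1 [c]
      simp only [inner_add_right, inner_smul_right, he, hf, real_inner_self_eq_norm_sq, hw]
      ring
    rwa [← c1, real_inner_comm, hμ, zero_smul, zero_add] at c
  have d := trip_det w e f ν ν'
  rw [h, mul_zero] at d
  have d1 := dec ν h1
  have d2 := dec ν' h2
  generalize trip w ν f = a1 at *
  generalize trip w e ν = b1 at *
  generalize trip w ν' f = a2 at *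
  generalize trip w e ν' = b2 at *
  by_cases k : a1 = 0 ∧ b1 = 0
  · exact ⟨1, 0, Or.inl one_ne_zero, by rw [d1, k.1, k.2]; simp⟩
  rcases not_and_or.1 k with k | k
  · refine ⟨a2, -a1, Or.inr (neg_ne_zero.2 k), ?_⟩
    rw [d1, d2]
    match_scalars
    · ring
    · linarith
  · refine ⟨b2, -b1, Or.inr (neg_ne_zero.2 k), ?_⟩
    rw [d1, d2]
    match_scalars
    · linarith
    · ring

end Pool.Agent.MP_3ee8cb_gt.CZI
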