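import Pool.Agent.MP_3ee8cb_gt.CZI.GeoB

/-! The orientation of the moving front in a Lipschitz chart. -/

namespace Pool.Agent.MP_3ee8cb_gt.CZI

open Set Metric Filter Topology D3
open D3GB (trip bv cr)
open scoped RealInnerProductSpace

variable {m m' : MF} {φ : V × V → V × V} {a : ℝ} {x u : V} {k : V → V} {O : Set V}

theorem Fam.flow (h : Fam φ x k O) (ho : m'.OK) (hu : u ∈ O) (s : ℝ) :
    mf m' φ x k (u + s • bv 2) = m'.Z s (mf m' φ x k u) := by
  rw [mf, mf, (h.inv u hu s).2, ← ho.add]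
  simp [bv, add_comm]

theorem Fam.nrm (h : Fam φ x k O) (hj : m'.Jac) (h0 : CZO.C0F m m' φ) (hu : u ∈ O) :
    ‖(mf m' φ x k u).2‖ = 1 :=
  (hj.norm _ _).trans ((h0.norm (x, k u) (D3NB.ne_of_unit (h.unit u hu))).trans (h.unit u hu))

/-- Positivity at a point of the zero slice and along its orbit. -/
theorem Fam.pos0 (h : Fam φ x k O) (ho : m'.OK) (hj : m'.Jac) (h0 : CZO.C0F m m' φ) (ha : 0 < a)
    (hL : CZL.LIPF m m' φ a) (hu : u ∈ O) (u2 : u 2 = 0) {D : V →L[ℝ] V × V}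
    (hD : HasFDerivAt (mf m' φ x k) D u) {L : V × V →L[ℝ] V} {s : V} {C : ℝ} (hC : 0 ≤ C)
    (h1 : ∀ᶠ v in 𝓝 u, L (φ (x, k v)) + s + v 2 • bv 2 = v ∧
      ‖φ (x, k v) - φ (x, k u)‖ ≤ C * ‖v - u‖)
    (h2 : ∀ ξ η, ‖ξ‖ ≤ C → ‖η‖ ≤ C → L ξ = bv 0 → L η = bv 1 →
      0 < trip (φ (x, k u)).2 (m'.ver (φ (x, k u)) ξ) (m'.ver (φ (x, k u)) η)) (t : ℝ) :
    0 < D3NB.yJ m' (mf m' φ x k u) (D (bv 0)) (D (bv 1)) t := by
  set P := mf m' φ x k with hP
  have e0 : ∀ v : V, v 2 = 0 → P v = φ (x, k v) := fun v hv => by rw [hP, mf, hv, ho.zero]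
  have key : ∀ e : V, e 2 = 0 → L (D e) = e ∧ ‖D e‖ ≤ C * ‖e‖ := fun e he => by
    have l0 : Tendsto (fun r : ℝ => u + r • e) (𝓝 0) (𝓝 u) := by
      have : Continuous fun r : ℝ => u + r • e := by fun_prop
      simpa using this.tendsto 0
    have z : ∀ r : ℝ, (u + r • e) 2 = 0 := fun r => by simp [u2, he]
    have d : HasDerivAt (fun r : ℝ => P (u + r • e)) (D e) 0 := hD.hasLineDerivAt e
    have d1 : HasDerivAt (fun r : ℝ => u + r • e - s) e 0 := by
      simpa using (((hasDerivAt_id (0 : ℝ)).smul_const e).const_add u).sub_const s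
    refine ⟨(L.hasFDerivAt.comp_hasDerivAt 0 d).unique (d1.congr_of_eventuallyEq ?_),
      d.le_of_lip' (by positivity) ?_⟩
    · filter_upwards [l0.eventually h1] with r hr
      have := hr.1
      rw [z, zero_smul, add_zero] at this
      rw [Function.comp, e0 _ (z r), eq_sub_iff_add_eq, this]
    · filter_upwards [l0.eventually h1] with r hr
      have := hr.2
      rw [add_sub_cancel_left, norm_smul] at this
      rw [zero_smul, add_zero, e0 _ (z r), e0 _ u2, sub_zero]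
      exact this.trans (le_of_eq (by ring))
  have ev := h.op.mem_nhds hu
  have un : ∀ᶠ v in 𝓝 u, ‖(P v).2‖ = 1 := mem_of_superset ev fun v hv => h.nrm hj h0 hv
  have pv := D3NB.ver_perp ho hD un
  have cy : Continuous (D3NB.yJ m' (P u) (D (bv 0)) (D (bv 1))) := continuous_iff_continuousAt.2
    fun r => (D3NB.yJ_der ho hj un.self_of_nhds (pv _) (pv _) r).continuousAt
  have b0 : (bv 0 : V) 2 = 0 := by simp [bv]
  have b1 : (bv 1 : V) 2 = 0 := by simp [bv]
  have ne : ∀ r, D3NB.yJ m' (P u) (D (bv 0)) (D (bv 1)) r ≠ 0 := fun r hr => by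
    have fl : ∀ v ∈ O, ∀ r : ℝ, P (v + r • bv 2) = m'.Z r (P v) := fun v hv => h.flow ho hv
    have ur := (h.inv u hu r).1
    have d := D3NB.flow_fd ho hD (u := bv 2) (s := r) (mem_of_superset ev fun v hv => fl v hv r)
    have d' := D3NB.flow_fd ho d (u := bv 2) (s := -r)
      (mem_of_superset (h.op.mem_nhds ur) fun v hv => fl v hv (-r))
    rw [neg_smul, add_neg_cancel_right] at d'
    obtain ⟨α, β, hαβ, k1⟩ := dep ((hj.norm r _).trans un.self_of_nhds)
      ((D3WI.J'_vel ho hj _ _ r).trans (pv _)) ((D3WI.J'_vel ho hj _ _ r).trans (pv _)) hr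
    have e2 : (α • bv 0 + β • bv 1 : V) 2 = 0 := by simp [bv]
    have k2 := h.dia hL ur d e2
    rw [← hP, fl u hu] at k2
    have k3 : m'.ver (m'.Z r (P u)) (((fderiv ℝ (m'.Z r) (P u)).comp D)
        (α • bv 0 + β • bv 1)) = 0 := by
      rw [map_add, map_add, map_smul, map_smul, map_smul, map_smul]
      exact k1
    obtain ⟨M, -, hM⟩ := nrm_le ho (m'.Z r (P u))
    rw [k3, norm_zero] at k2
    have k4 := hM (((fderiv ℝ (m'.Z r) (P u)).comp D) (α • bv 0 + β • bv 1))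
    rw [k3, norm_zero, le_antisymm (nonpos_of_mul_nonpos_right k2 ha) (norm_nonneg _), add_zero,
      mul_zero, norm_le_zero_iff] at k4
    have k5 := (key _ e2).1
    rw [hD.unique d', ContinuousLinearMap.comp_apply, k4, map_zero, map_zero] at k5
    have k6 := congrArg (fun v : V => v 0) k5
    have k7 := congrArg (fun v : V => v 1) k5
    simp [bv] at k6 k7
    exact hαβ.elim (fun c => c k6.symm) fun c => c k7.symm
  have n0 : ‖(bv 0 : V)‖ = 1 := by simp [bv]
  have n1 : ‖(bv 1 : V)‖ = 1 := by simp [bv]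
  have p0 : 0 < D3NB.yJ m' (P u) (D (bv 0)) (D (bv 1)) 0 := by
    have := h2 _ _ (by simpa [n0] using (key _ b0).2) (by simpa [n1] using (key _ b1).2)
      (key _ b0).1 (key _ b1).1
    have z : m'.Z 0 = id := funext ho.zero
    simpa only [D3NB.yJ, MF.J', z, fderiv_id, ContinuousLinearMap.id_apply, id, e0 u u2] using this
  by_contra hn
  obtain ⟨r, hr⟩ := intermediate_value_univ t 0 cy ⟨not_lt.1 hn, p0.le⟩
  exact ne r hr

end Pool.Agent.MP_3ee8cb_gt.CZI
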